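import Pool.Agent.MP_56ff7a_an.H29.Sp
import Pool.Agent.MP_56ff7a_an.Mg.Final

open Pool.Agent.MP_56ff7a_an

/-- The reduced C*-algebra of a non-amenable countable group is never semiprojective and never
weakly semiprojective, while it is matricially weakly semiprojective for some non-amenable
countable group. -/
theorem Pool.Agent.Results.MP_56ff7a_an.FullAnswer.result :
    (∀ (G : Type) [Group G] [Countable G], ¬ IsAmenable G →
      ¬ IsSemiprojective (generatedCStar (leftTranslations G)) ∧
      ¬ IsWeaklySemiprojective (generatedCStar (leftTranslations G))) ∧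
    ∃ (G : Type) (_ : Group G) (_ : Countable G),
      ¬ IsAmenable G ∧ IsMatriciallyWeaklySemiprojective (generatedCStar (leftTranslations G)) := by
  refine ⟨fun G _ _ h => ⟨H29.not_sp h, H29.not_wsp h⟩, ?_⟩
  obtain ⟨G, _, _, a, t, g, h⟩ := exists_countable_rel
  have := closure_infinite h.triple h.mem_closure h.hgt h.hga h.hne
  exact ⟨G, inferInstance, inferInstance, not_amenable h.triple, matricial_of_rel h⟩
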